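import Mathlib
import Pool.Agent.H77.TF.Def
import Pool.Agent.H77.TF.Stm
import Pool.Agent.H77.GR.Stm
import Pool.Agent.H77.GQ.Stm

/-!
# Project CZ: from finite fields to every infinite field (specialisation of the coefficients). Statements

`R` is a subring of the field `K` (generated by finitely many elements), `φ : R →+* k` a specialisation.
-/

set_option autoImplicit false

open MvPolynomial Module Pool.Agent.H77.TF Pool.Agent.H77.GR

namespace Pool.Agent.H49.CZ

/-- HOM. Proof: a finitely generated ring with a maximal ideal `m` (nontrivial); the quotient is a field of finite type over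
`ℤ` and `ℤ` is a Jacobson ring, so it is a finite `ℤ`-module (`finite_of_finite_type_of_isJacobsonRing`), a field, hence finite. -/
def S_HOM : Prop :=
  ∀ (K : Type) [Field K] (F : Finset K), ∃ (k : Type) (_ : Field k) (_ : Fintype k),
    Nonempty (Subring.closure (F : Set K) →+* k)

/-- LFT. Proof: `F` contains an inverse of a nonzero coefficient of every `A i`, so (SBR) `LRm A m` is given by linear conditions on the
coefficients, a matrix `M`; over `K` there is `G` with `M G M = M`, put the entries of `G` in `F`. If `v` is a solution over `k`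
then `v = (1 - G M) v` and the columns of `1 - G M` are solutions over `R`. -/
def S_LFT : Prop :=
  ∀ (K : Type) [Field K] (n : ℕ) (A : Fin n → Fin 3 → K) (m : ℕ), (∀ i, A i ≠ 0) →
    ∃ F : Finset K, ∀ (R : Subring K) (AR : Fin n → Fin 3 → R), (F : Set K) ⊆ R →
      mapA R.subtype AR = A → ∀ (k : Type) [Field k] (φ : R →+* k), ∀ v ∈ LRm (mapA φ AR) m,
        v ∈ Submodule.span k (mapV φ '' (LRm AR m : Set (Fin 3 → MvPolynomial (Fin 3) R)))

/-- TRP. Proof: `F` contains the inverse of a nonzero coefficient of every `A i`, the inverse of a nonzero 2-minor for every pair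
`i ≠ j` and the inverses of all nonzero determinants of triples. -/
def S_TRP : Prop :=
  ∀ (K : Type) [Field K] (n : ℕ) (A : Fin n → Fin 3 → K), Simple A →
    ∃ F : Finset K, ∀ (R : Subring K) (AR : Fin n → Fin 3 → R), (F : Set K) ⊆ R →
      mapA R.subtype AR = A → ∀ (k : Type) [Field k] (φ : R →+* k),
        Simple (mapA φ AR) ∧ Pool.Agent.H77.GQ.Same A (mapA φ AR)

/-- DSC. Proof: a basis over `k`, `b j ∈ LRm (mapA φ AR) (e j)`, is a combination of images of `LRm AR (e j)`; its determinant is
nonzero and multilinear, so there are `V j ∈ LRm AR (e j)` with `φ (det V) ≠ 0`; so `det V ≠ 0`, homogeneous of degree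
`∑ e j = n` and divisible by `∏ lin (A i)` over `K`: SAI (see helper6's Fqg.lean). -/
def S_DSC : Prop :=
  ∀ (K : Type) [Field K] (n : ℕ) (A : Fin n → Fin 3 → K) (e : Fin 3 → ℕ), Simple A → ∑ j, e j = n →
    ∀ (R : Subring K) (AR : Fin n → Fin 3 → R), mapA R.subtype AR = A →
      ∀ (k : Type) [Field k] (φ : R →+* k), (∀ j, ∀ v ∈ LRm (mapA φ AR) (e j),
          v ∈ Submodule.span k (mapV φ '' (LRm AR (e j) : Set (Fin 3 → MvPolynomial (Fin 3) R)))) →
        HasExp (mapA φ AR) e → HasExp A e

/-- BIG. Proof: `F` contains `(j : K)⁻¹` for `0 < j < a`, `b + 1` different elements of `K` and the inverses of their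
differences. -/
def S_BIG : Prop :=
  ∀ (K : Type) [Field K] [Infinite K] (a b : ℕ), (∀ j : ℕ, 0 < j → j < a → (j : K) ≠ 0) →
    ∃ F : Finset K, ∀ (R : Subring K), (F : Set K) ⊆ R → ∀ (k : Type) [Field k] [Fintype k]
      (_ : R →+* k), (∀ j : ℕ, 0 < j → j < a → (j : k) ≠ 0) ∧ b < Fintype.card k

/-- SPC (all together). Proof: the union of the coefficients of `A` and of the `F` of TRP, BIG and of LFT in the degrees
`1, a, b`; `R = Subring.closure F`; HOM; DSC. -/
def S_SPC : Prop :=
  ∀ (K : Type) [Field K] [Infinite K] (n a b : ℕ) (A : Fin n → Fin 3 → K), Simple A → n = 1 + a + b →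
    (∀ j : ℕ, 0 < j → j < a → (j : K) ≠ 0) →
    ∃ (k : Type) (_ : Field k) (_ : Fintype k) (B : Fin n → Fin 3 → k), Simple B ∧
      Pool.Agent.H77.GQ.Same A B ∧ (∀ j : ℕ, 0 < j → j < a → (j : k) ≠ 0) ∧ b < Fintype.card k ∧
      (HasExp B ![1, a, b] → HasExp A ![1, a, b])

end Pool.Agent.H49.CZ
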