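import Mathlib
import Pool.Agent.H49.CZ.Stm
import Pool.Agent.H57.GR.Sbr

/-!
# CZ: logarithmic fields of a specialisation come from logarithmic fields over the subring (LFT)
-/

set_option autoImplicit false

open MvPolynomial Module Pool.Agent.H77.TF Pool.Agent.H77.GR

namespace Pool.Agent.H49.CZ

noncomputable section

/-- A generalized inverse. -/
theorem exists_ginv {K : Type} [Field K] {ι κ : Type} [Fintype ι] [Fintype κ] [DecidableEq ι]
    [DecidableEq κ] (M : Matrix κ ι K) : ∃ G : Matrix ι κ K, M * G * M = M := by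
  obtain ⟨s, hs⟩ := (Matrix.toLin' M).rangeRestrict.exists_rightInverse_of_surjective
    (LinearMap.range_rangeRestrict _)
  obtain ⟨p, hp⟩ := (LinearMap.range (Matrix.toLin' M)).subtype.exists_leftInverse_of_injective
    (Submodule.ker_subtype _)
  refine ⟨LinearMap.toMatrix' (s.comp p), ?_⟩
  have h1 : (Matrix.toLin' M).comp ((s.comp p).comp (Matrix.toLin' M)) = Matrix.toLin' M := by
    apply LinearMap.ext
    intro v
    have h2 : p ((Matrix.toLin' M) v) = (Matrix.toLin' M).rangeRestrict v := by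
      have h3 := LinearMap.congr_fun hp ((Matrix.toLin' M).rangeRestrict v)
      exact h3
    have h3 : (Matrix.toLin' M).rangeRestrict (s ((Matrix.toLin' M).rangeRestrict v)) =
        (Matrix.toLin' M).rangeRestrict v := LinearMap.congr_fun hs _
    show (Matrix.toLin' M) (s (p ((Matrix.toLin' M) v))) = (Matrix.toLin' M) v
    rw [h2]
    exact congrArg Subtype.val h3
  have h4 := congrArg LinearMap.toMatrix' h1
  rw [LinearMap.toMatrix'_comp, LinearMap.toMatrix'_comp, LinearMap.toMatrix'_toLin'] at h4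
  rw [Matrix.mul_assoc]
  exact h4

/-- The exponents of degree `m`. -/
abbrev Tm (m : ℕ) : Type := {d : Fin 3 →₀ ℕ // d ∈ Finset.finsuppAntidiag (Finset.univ : Finset (Fin 3)) m}

theorem mem_Tm {m : ℕ} {d : Fin 3 →₀ ℕ} :
    d ∈ Finset.finsuppAntidiag (Finset.univ : Finset (Fin 3)) m ↔ Finsupp.degree d = m := by
  rw [Finset.mem_finsuppAntidiag, Finsupp.degree_eq_sum]
  simp

theorem hom_coeff {R : Type} [CommRing R] {m : ℕ} {f : MvPolynomial (Fin 3) R}
    (hf : f.IsHomogeneous m) {d : Fin 3 →₀ ℕ} (hd : coeff d f ≠ 0) : Finsupp.degree d = m := by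
  have h1 := hf hd
  rw [← h1, Finsupp.degree_eq_weight_one]
  rfl

theorem hom_sum {R : Type} [CommRing R] {m : ℕ} {f : MvPolynomial (Fin 3) R}
    (hf : f.IsHomogeneous m) : f = ∑ d : Tm m, monomial d.1 (coeff d.1 f) := by
  classical
  ext d
  rw [coeff_sum]
  by_cases hd : coeff d f = 0
  · rw [hd]
    symm
    refine Finset.sum_eq_zero fun x _ => ?_
    rw [coeff_monomial]
    split_ifs with h
    · rw [h, hd]
    · rfl
  · have h1 := mem_Tm.2 (hom_coeff hf hd)
    rw [Finset.sum_eq_single (⟨d, h1⟩ : Tm m)]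
    · rw [coeff_monomial, if_pos rfl]
    · intro x _ hx
      rw [coeff_monomial, if_neg]
      intro h
      exact hx (Subtype.ext h)
    · intro h
      exact absurd (Finset.mem_univ _) h

/-- The fields with given coefficients. -/
def vec {R : Type} [CommRing R] {m : ℕ} (c : Fin 3 × Tm m → R) : Fin 3 → MvPolynomial (Fin 3) R :=
  fun l => ∑ d : Tm m, monomial d.1 (c (l, d))

theorem vec_hom {R : Type} [CommRing R] {m : ℕ} (c : Fin 3 × Tm m → R) (l : Fin 3) :
    (vec c l).IsHomogeneous m := by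
  refine IsHomogeneous.sum _ _ _ fun d _ => ?_
  apply isHomogeneous_monomial
  exact mem_Tm.1 d.2

/-- The matrix of the linear conditions. -/
def mat {R : Type} [CommRing R] {n : ℕ} (a : Fin n → Fin 3 → R) (j : Fin n → Fin 3) (u : Fin n → R)
    (m : ℕ) : Matrix (Fin n × Tm m) (Fin 3 × Tm m) R :=
  fun x y => coeff x.2.1 (sg (a x.1) (j x.1) (u x.1) (C (a x.1 y.1) * monomial y.2.1 1))

theorem coeff_sg {R : Type} [CommRing R] {n : ℕ} (a : Fin n → Fin 3 → R) (j : Fin n → Fin 3)
    (u : Fin n → R) (m : ℕ) (c : Fin 3 × Tm m → R) (x : Fin n × Tm m) :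
    coeff x.2.1 (sg (a x.1) (j x.1) (u x.1) (evlR (a x.1) (vec c))) = (mat a j u m).mulVec c x := by
  have h1 : evlR (a x.1) (vec c) = ∑ y : Fin 3 × Tm m, c y • (C (a x.1 y.1) * monomial y.2.1 1) := by
    unfold evlR vec
    rw [Fintype.sum_prod_type]
    refine Finset.sum_congr rfl fun l _ => ?_
    rw [Finset.mul_sum]
    refine Finset.sum_congr rfl fun d _ => ?_
    have h2 : (monomial d.1 (c (l, d)) : MvPolynomial (Fin 3) R) = C (c (l, d)) * monomial d.1 1 := by
      rw [C_mul_monomial, mul_one]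
    rw [h2, smul_eq_C_mul]
    ring
  rw [h1, map_sum, coeff_sum]
  unfold Matrix.mulVec dotProduct mat
  refine Finset.sum_congr rfl fun y _ => ?_
  rw [map_smul, coeff_smul, smul_eq_mul, mul_comm]

theorem mem_iff {R : Type} [CommRing R] {n : ℕ} (a : Fin n → Fin 3 → R) (j : Fin n → Fin 3)
    (u : Fin n → R) (hu : ∀ i, u i * a i (j i) = 1) (m : ℕ) (c : Fin 3 × Tm m → R) :
    vec c ∈ LRm a m ↔ (mat a j u m).mulVec c = 0 := by
  have hS := fun i => Pool.Agent.H57.GR.sbr R (a i) (j i) (u i) (hu i)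
  constructor
  · rintro ⟨h1, -⟩
    funext x
    rw [← coeff_sg, (hS x.1).1 _ |>.1 (h1 x.1)]
    rfl
  · intro h
    refine ⟨fun i => ((hS i).1 _).2 ?_, vec_hom c⟩
    have h2 : (evlR (a i) (vec c)).IsHomogeneous m := by
      refine IsHomogeneous.sum _ _ _ fun l _ => ?_
      simpa using (isHomogeneous_C (Fin 3) (a i l)).mul (vec_hom c l)
    have h3 := (hS i).2.1 _ m h2
    rw [hom_sum h3]
    refine Finset.sum_eq_zero fun d _ => ?_
    have h4 := coeff_sg a j u m c (i, d)
    rw [h] at h4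
    have h5 : coeff d.1 (sg (a i) (j i) (u i) (evlR (a i) (vec c))) = 0 := h4
    rw [h5, monomial_zero]

theorem map_mat {R R' : Type} [CommRing R] [CommRing R'] (φ : R →+* R') {n : ℕ}
    (a : Fin n → Fin 3 → R) (j : Fin n → Fin 3) (u : Fin n → R) (hu : ∀ i, u i * a i (j i) = 1)
    (m : ℕ) : (mat a j u m).map φ = mat (mapA φ a) j (fun i => φ (u i)) m := by
  ext x y
  rw [Matrix.map_apply]
  unfold mat
  rw [← coeff_map, (Pool.Agent.H57.GR.sbr R (a x.1) (j x.1) (u x.1) (hu x.1)).2.2 R' φ, map_mul, map_C,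
    map_monomial, map_one]
  rfl

theorem map_vec {R R' : Type} [CommRing R] [CommRing R'] (φ : R →+* R') {m : ℕ}
    (c : Fin 3 × Tm m → R) : mapV φ (vec c) = vec fun y => φ (c y) := by
  funext l
  unfold mapV vec
  rw [map_sum]
  refine Finset.sum_congr rfl fun d _ => ?_
  rw [map_monomial]

theorem t_LFT : S_LFT := by
  classical
  intro K _ n A m hA
  choose j hj using fun i => Function.ne_iff.1 (hA i)
  have hj' : ∀ i, A i (j i) ≠ 0 := hj
  obtain ⟨G, hG⟩ := exists_ginv (mat A j (fun i => (A i (j i))⁻¹) m)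
  refine ⟨(Finset.univ.image fun i => (A i (j i))⁻¹) ∪
    (Finset.univ.image fun z : (Fin 3 × Tm m) × (Fin n × Tm m) => G z.1 z.2), ?_⟩
  intro R AR hF hAR k _ φ v hv
  have hu : ∀ i, (A i (j i))⁻¹ ∈ R := fun i => hF (by simp)
  have hGR : ∀ x y, G x y ∈ R := fun x y => hF (by
    rw [Finset.mem_coe, Finset.mem_union]
    right
    exact Finset.mem_image_of_mem (fun z : (Fin 3 × Tm m) × (Fin n × Tm m) => G z.1 z.2)
      (Finset.mem_univ (x, y)))
  have hARi : ∀ i l, ((AR i l : R) : K) = A i l := fun i l => congrFun (congrFun hAR i) l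
  set u : Fin n → R := fun i => ⟨(A i (j i))⁻¹, hu i⟩ with hud
  have huR : ∀ i, u i * AR i (j i) = 1 := by
    intro i
    apply Subtype.ext
    show (A i (j i))⁻¹ * ((AR i (j i) : R) : K) = 1
    rw [hARi]
    exact inv_mul_cancel₀ (hj' i)
  set GR : Matrix (Fin 3 × Tm m) (Fin n × Tm m) R := fun x y => ⟨G x y, hGR x y⟩ with hGRd
  have hM : mat AR j u m * GR * mat AR j u m = mat AR j u m := by
    have h1 : (mat AR j u m).map R.subtype = mat A j (fun i => (A i (j i))⁻¹) m := by
      rw [map_mat R.subtype AR j u huR m, hAR]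
      rfl
    have h2 : GR.map R.subtype = G := rfl
    have h3 : Function.Injective fun N : Matrix (Fin n × Tm m) (Fin 3 × Tm m) R => N.map R.subtype := by
      apply Matrix.map_injective
      exact Subtype.val_injective
    apply h3
    show (mat AR j u m * GR * mat AR j u m).map R.subtype = (mat AR j u m).map R.subtype
    rw [Matrix.map_mul, Matrix.map_mul, h1, h2, hG]
  have huk : ∀ i, φ (u i) * mapA φ AR i (j i) = 1 := by
    intro i
    show φ (u i) * φ (AR i (j i)) = 1
    rw [← map_mul, huR, map_one]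
  -- the coordinates of `v`
  obtain ⟨c, hc⟩ : ∃ c : Fin 3 × Tm m → k, v = vec c := by
    refine ⟨fun y => coeff y.2.1 (v y.1), ?_⟩
    funext l
    exact hom_sum (hv.2 l)
  rw [hc] at hv
  have h1 := (mem_iff (mapA φ AR) j (fun i => φ (u i)) huk m c).1 hv
  rw [← map_mat φ AR j u huR m] at h1
  obtain ⟨P, hP⟩ : ∃ P : Matrix (Fin 3 × Tm m) (Fin 3 × Tm m) R, P = 1 - GR * mat AR j u m := ⟨_, rfl⟩
  have h2 : c = (P.map φ).mulVec c := by
    rw [hP, Matrix.map_sub φ (map_sub φ), Matrix.map_mul, Matrix.sub_mulVec, ← Matrix.mulVec_mulVec, h1,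
      Matrix.mulVec_zero, sub_zero, Matrix.map_one φ (map_zero φ) (map_one φ), Matrix.one_mulVec]
  have h3 : v = ∑ y, c y • mapV φ (vec fun x => P x y) := by
    rw [hc]
    conv_lhs => rw [h2]
    funext l
    rw [Finset.sum_apply]
    have h4 : ∀ y, (c y • mapV φ (vec fun x => P x y)) l =
        ∑ d : Tm m, monomial d.1 (φ (P (l, d) y) * c y) := by
      intro y
      rw [Pi.smul_apply, map_vec]
      unfold vec
      rw [Finset.smul_sum]
      refine Finset.sum_congr rfl fun d _ => ?_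
      rw [smul_monomial, smul_eq_mul, mul_comm]
    rw [Finset.sum_congr rfl fun y _ => h4 y, Finset.sum_comm]
    unfold vec
    refine Finset.sum_congr rfl fun d _ => ?_
    rw [← map_sum]
    rfl
  rw [h3]
  refine Submodule.sum_mem _ fun y _ => Submodule.smul_mem _ _ (Submodule.subset_span ?_)
  refine ⟨_, ?_, rfl⟩
  show vec (fun x => P x y) ∈ LRm AR m
  rw [mem_iff AR j u huR m]
  have h5 : mat AR j u m * P = 0 := by
    rw [hP, Matrix.mul_sub, Matrix.mul_one, ← Matrix.mul_assoc, hM, sub_self]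
  funext x
  have h6 := congrFun (congrFun h5 x) y
  rw [Matrix.mul_apply] at h6
  exact h6

end

end Pool.Agent.H49.CZ
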